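import Pool.Agent.Helper36_PP.StmtsCY

/-!
# FRE: if `V^P = (∑ P) V` for an `ℓ`-group `P` in characteristic `ℓ`, the identity is a trace

`φ₀` is a linear map which on the image of the norm is a section of the norm. The trace `T` of `φ₀`
commutes with `P` and is the identity on the fixed points, hence injective (the elements `y - 1`
are nilpotent), hence bijective; `φ = φ₀ T⁻¹`.
-/

open scoped BigOperators

noncomputable section

namespace Pool.Agent.PP.CY.H75

open Pool.Agent.Helper51_AWC Pool.Agent.Helper79_WRA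

section

variable {F : Type} [Field F] {G : Type} [Group G] {V V' : Type} [AddCommGroup V]
  [Module F V] [AddCommGroup V'] [Module F V']

theorem trP_eq [Fintype G] (ρ : Representation F G V) (ρ' : Representation F G V')
    (P : Subgroup G) [Fintype P] (φ : V →ₗ[F] V') :
    trP ρ ρ' P φ = ∑ p : P, ρ' p ∘ₗ φ ∘ₗ ρ (p : G)⁻¹ :=
  finsum_eq_sum_of_fintype _

theorem trP_apply [Fintype G] (ρ : Representation F G V) (ρ' : Representation F G V')
    (P : Subgroup G) [Fintype P] (φ : V →ₗ[F] V') (v : V) :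
    trP ρ ρ' P φ v = ∑ p : P, ρ' p (φ (ρ (p : G)⁻¹ v)) := by
  rw [trP_eq, LinearMap.sum_apply]
  rfl

/-- the trace commutes with `P` -/
theorem trP_comm [Finite G] (ρ : Representation F G V) (ρ' : Representation F G V')
    (P : Subgroup G) (φ : V →ₗ[F] V') (g : G) (hg : g ∈ P) (v : V) :
    trP ρ ρ' P φ (ρ g v) = ρ' g (trP ρ ρ' P φ v) := by
  classical
  have := Fintype.ofFinite G
  have := Fintype.ofFinite P
  rw [trP_apply, trP_apply, map_sum]
  have key := Fintype.sum_equiv (Equiv.mulLeft (⟨g, hg⟩ : P))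
    (fun p : P => ρ' g (ρ' p (φ (ρ (p : G)⁻¹ v))))
    (fun p : P => ρ' p (φ (ρ (p : G)⁻¹ (ρ g v)))) (by
      intro p
      have h1 : (((Equiv.mulLeft (⟨g, hg⟩ : P)) p : P) : G) = g * (p : G) := rfl
      have h2 : ρ' (g * (p : G)) (φ (ρ (g * (p : G))⁻¹ (ρ g v))) =
          ρ' g (ρ' p (φ (ρ (p : G)⁻¹ v))) := by
        rw [map_mul ρ', ← Module.End.mul_apply (ρ (g * (p : G))⁻¹) (ρ g) v, ← map_mul ρ]
        have h3 : (g * (p : G))⁻¹ * g = (p : G)⁻¹ := by group
        rw [h3]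
        rfl
      show ρ' g (ρ' p (φ (ρ (p : G)⁻¹ v))) =
        ρ' (((Equiv.mulLeft (⟨g, hg⟩ : P)) p : P) : G)
          (φ (ρ (((Equiv.mulLeft (⟨g, hg⟩ : P)) p : P) : G)⁻¹ (ρ g v)))
      rw [h1, h2])
  exact key.symm

/-- composition with a map commuting with `P` -/
theorem trP_comp [Finite G] (ρ : Representation F G V) (ρ' : Representation F G V')
    (P : Subgroup G) (φ : V →ₗ[F] V') (T : V →ₗ[F] V)
    (hT : ∀ g ∈ P, ∀ v, T (ρ g v) = ρ g (T v)) (v : V) :
    trP ρ ρ' P (φ ∘ₗ T) v = trP ρ ρ' P φ (T v) := by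
  classical
  have := Fintype.ofFinite G
  have := Fintype.ofFinite P
  rw [trP_apply, trP_apply]
  refine Finset.sum_congr rfl fun p _ => ?_
  rw [LinearMap.comp_apply, hT _ (P.inv_mem p.2)]

end

/-- `y - 1` is nilpotent -/
theorem nilp (ℓ : ℕ) [Fact ℓ.Prime] (F : Type) [Field F] [CharP F ℓ] {V : Type} [AddCommGroup V]
    [Module F V] (Y : V →ₗ[F] V) (m : ℕ) (hY : Y ^ (ℓ ^ m) = 1) :
    (Y - 1) ^ (ℓ ^ m) = 0 := by
  have h : ((Polynomial.X : Polynomial F) - 1) ^ (ℓ ^ m) = Polynomial.X ^ (ℓ ^ m) - 1 := by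
    rw [sub_pow_char_pow, one_pow]
  have h2 := congrArg (Polynomial.aeval (R := F) (A := Module.End F V) Y) h
  simp only [map_pow, map_sub, Polynomial.aeval_X, map_one] at h2
  rw [hY, sub_self] at h2
  exact h2

theorem fre : FrcStmt := by
  intro ℓ _ F _ hch G _ _ P hP hcyc V _ _ _ ρ hfix
  classical
  have := hch
  have := Fintype.ofFinite G
  have := Fintype.ofFinite P
  obtain ⟨s, hs⟩ := (∑ᶠ p : P, ρ p : V →ₗ[F] V).rangeRestrict.exists_rightInverse_of_surjective
    (LinearMap.range_rangeRestrict _)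
  obtain ⟨φ, hφ⟩ := s.exists_extend
  have hN : ∀ v ∈ fixV ρ P, (∑ᶠ p : P, ρ p : V →ₗ[F] V) (φ v) = v := by
    intro v hv
    have hv' := hfix hv
    have h1 : φ v = s ⟨v, hv'⟩ := by
      rw [← hφ]
      rfl
    have h2 := congrArg (fun t : LinearMap.range (∑ᶠ p : P, ρ p : V →ₗ[F] V) => (t : V))
      (LinearMap.congr_fun hs ⟨v, hv'⟩)
    rw [h1]
    exact h2
  have hT1 : ∀ v ∈ fixV ρ P, trP ρ ρ P φ v = v := by
    intro v hv
    rw [trP_apply]
    have h2 := hN v hv
    rw [finsum_eq_sum_of_fintype, LinearMap.sum_apply] at h2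
    refine Eq.trans (Finset.sum_congr rfl fun p _ => ?_) h2
    rw [hv _ (P.inv_mem p.2)]
  -- injectivity
  obtain ⟨y, hy⟩ := hcyc.exists_generator
  obtain ⟨m, hm⟩ := IsPGroup.iff_card.mp hP
  have hY : (ρ (y : G)) ^ (ℓ ^ m) = 1 := by
    rw [← map_pow, ← hm, ← Subgroup.coe_pow, pow_card_eq_one', Subgroup.coe_one, map_one]
  have hnil := nilp ℓ F (ρ (y : G)) m hY
  have hfixy : ∀ v : V, ρ (y : G) v = v → v ∈ fixV ρ P := by
    intro v hv p hp
    obtain ⟨k, hk⟩ := (mem_powers_iff_mem_zpowers.mpr (hy ⟨p, hp⟩))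
    have h1 : (y : G) ^ k = p := by
      have := congrArg Subtype.val hk
      simpa using this
    rw [← h1, map_pow]
    clear hk h1
    induction k with
    | zero => rfl
    | succ k ih => rw [pow_succ, Module.End.mul_apply, hv, ih]
  have hcomm : ∀ v, trP ρ ρ P φ (ρ (y : G) v) = ρ (y : G) (trP ρ ρ P φ v) :=
    fun v => trP_comm ρ ρ P φ y y.2 v
  have hcommD : ∀ (j : ℕ) (v : V), trP ρ ρ P φ (((ρ (y : G) - 1) ^ j) v) =
      ((ρ (y : G) - 1) ^ j) (trP ρ ρ P φ v) := by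
    intro j
    induction j with
    | zero => intro v; rfl
    | succ j ih =>
      intro v
      rw [pow_succ, Module.End.mul_apply, Module.End.mul_apply, ih, LinearMap.sub_apply,
        LinearMap.sub_apply, map_sub, hcomm]
      rfl
  have hinj : Function.Injective (trP ρ ρ P φ) := by
    rw [← LinearMap.ker_eq_bot, LinearMap.ker_eq_bot']
    intro v hv
    by_contra hne
    have hex : ∃ j : ℕ, ((ρ (y : G) - 1) ^ j) v = 0 := ⟨ℓ ^ m, by rw [hnil]; rfl⟩
    have h0 : Nat.find hex ≠ 0 := by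
      intro h
      have := Nat.find_spec hex
      rw [h] at this
      exact hne this
    obtain ⟨j, hj⟩ := Nat.exists_eq_succ_of_ne_zero h0
    have hj1 := Nat.find_spec hex
    have hj2 := Nat.find_min hex (m := j) (by omega)
    rw [hj, pow_succ', Module.End.mul_apply] at hj1
    apply hj2
    have h3 : ρ (y : G) (((ρ (y : G) - 1) ^ j) v) = ((ρ (y : G) - 1) ^ j) v := by
      have : ρ (y : G) (((ρ (y : G) - 1) ^ j) v) - ((ρ (y : G) - 1) ^ j) v = 0 := hj1
      exact sub_eq_zero.mp this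
    have h4 := hT1 _ (hfixy _ h3)
    rw [hcommD, hv, map_zero] at h4
    exact h4.symm
  have hbij : Function.Bijective (trP ρ ρ P φ) :=
    ⟨hinj, LinearMap.injective_iff_surjective.mp hinj⟩
  let E : V ≃ₗ[F] V := LinearEquiv.ofBijective (trP ρ ρ P φ) hbij
  have hE : ∀ v, trP ρ ρ P φ (E.symm v) = v := fun v => E.apply_symm_apply v
  have hEc : ∀ g ∈ P, ∀ v, (E.symm : V →ₗ[F] V) (ρ g v) = ρ g ((E.symm : V →ₗ[F] V) v) := by
    intro g hg v
    apply hinj
    rw [trP_comm ρ ρ P φ g hg]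
    show trP ρ ρ P φ (E.symm (ρ g v)) = ρ g (trP ρ ρ P φ (E.symm v))
    rw [hE, hE]
  refine ⟨φ ∘ₗ (E.symm : V →ₗ[F] V), ?_⟩
  ext v
  rw [trP_comp ρ ρ P φ _ hEc]
  exact hE v

end Pool.Agent.PP.CY.H75


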